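import Pool.Agent.L5helper66.TD.Defs2

/-!
# Existence of a tetrahedron with given edges
-/

set_option autoImplicit false

open scoped TensorProduct RealInnerProductSpace

namespace Pool.Agent.L5helper3.NF

open Pool.Agent.L5helper66.TD

lemma dist3 (x y z x' y' z' : ℝ) :
    dist (!₂[x, y, z] : E3) (!₂[x', y', z'] : E3) =
      √((x - x') ^ 2 + (y - y') ^ 2 + (z - z') ^ 2) := by
  rw [EuclideanSpace.dist_eq]
  congr 1
  simp [Fin.sum_univ_three, Real.dist_eq, sq_abs]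

lemma dist3_eq {x y z x' y' z' r : ℝ} (hr : 0 < r)
    (h : (x - x') ^ 2 + (y - y') ^ 2 + (z - z') ^ 2 = r ^ 2) :
    dist (!₂[x, y, z] : E3) (!₂[x', y', z'] : E3) = r := by
  rw [dist3, h, Real.sqrt_sq hr.le]

lemma affine_indep {a x2 y2 x3 y3 z3 : ℝ} (ha : a ≠ 0) (hy : y2 ≠ 0) (hz : z3 ≠ 0) :
    AffineIndependent ℝ (![!₂[0, 0, 0], !₂[a, 0, 0], !₂[x2, y2, 0], !₂[x3, y3, z3]] :
      Fin 4 → E3) := by
  rw [affineIndependent_iff_of_fintype]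
  intro w hw h
  rw [Finset.weightedVSub_eq_linear_combination _ hw] at h
  have h0 := congrArg (fun v : E3 => v 0) h
  have h1 := congrArg (fun v : E3 => v 1) h
  have h2 := congrArg (fun v : E3 => v 2) h
  simp [Fin.sum_univ_four] at h0 h1 h2
  rw [Fin.sum_univ_four] at hw
  have e3 : w 3 = 0 := by
    rcases h2 with h | h
    · exact h
    · exact absurd h hz
  rw [e3] at h0 h1 hw
  have e2 : w 2 = 0 := by
    have : w 2 * y2 = 0 := by linarith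
    exact (mul_eq_zero.1 this).resolve_right hy
  rw [e2] at h0 hw
  have e1 : w 1 = 0 := by
    have : w 1 * a = 0 := by linarith
    exact (mul_eq_zero.1 this).resolve_right ha
  rw [e1] at hw
  have e0 : w 0 = 0 := by linarith
  intro i
  fin_cases i
  · exact e0
  · exact e1
  · exact e2
  · exact e3

/-- NF3 -/
theorem exists_tetra (a b c d e f : ℝ) (ha : 0 < a) (hb : 0 < b) (hc : 0 < c) (hd : 0 < d)
    (he : 0 < e) (hf : 0 < f) (h2 : (a ^ 2 + b ^ 2 - d ^ 2) ^ 2 < 4 * a ^ 2 * b ^ 2)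
    (h3 : 0 < cm a b c d e f) :
    ∃ T : Fin 4 → E3, AffineIndependent ℝ T ∧ HasEdges T a b c d e f := by
  obtain ⟨x2, hx2⟩ : ∃ x2 : ℝ, 2 * a * x2 = a ^ 2 + b ^ 2 - d ^ 2 :=
    ⟨(a ^ 2 + b ^ 2 - d ^ 2) / (2 * a), by field_simp⟩
  obtain ⟨x3, hx3⟩ : ∃ x3 : ℝ, 2 * a * x3 = a ^ 2 + c ^ 2 - e ^ 2 :=
    ⟨(a ^ 2 + c ^ 2 - e ^ 2) / (2 * a), by field_simp⟩
  have hpos : 0 < b ^ 2 - x2 ^ 2 := by
    rw [← hx2] at h2
    have : 0 < 4 * a ^ 2 * (b ^ 2 - x2 ^ 2) := by nlinarith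
    exact (pos_iff_pos_of_mul_pos this).1 (by positivity)
  obtain ⟨y2, hy2, hy2'⟩ : ∃ y2 : ℝ, 0 < y2 ∧ y2 ^ 2 = b ^ 2 - x2 ^ 2 :=
    ⟨√(b ^ 2 - x2 ^ 2), Real.sqrt_pos.2 hpos, Real.sq_sqrt hpos.le⟩
  obtain ⟨y3, hy3⟩ : ∃ y3 : ℝ, 2 * (x2 * x3 + y2 * y3) = b ^ 2 + c ^ 2 - f ^ 2 :=
    ⟨((b ^ 2 + c ^ 2 - f ^ 2) / 2 - x2 * x3) / y2, by field_simp; ring⟩
  have hcm : cm a b c d e f = 8 * a ^ 2 * y2 ^ 2 * (c ^ 2 - x3 ^ 2 - y3 ^ 2) := by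
    unfold cm
    rw [← hx2, ← hx3, ← hy3]
    have hb2 : b ^ 2 = x2 ^ 2 + y2 ^ 2 := by linarith
    rw [hb2]
    ring
  have hpos3 : 0 < c ^ 2 - x3 ^ 2 - y3 ^ 2 := by
    rw [hcm] at h3
    exact (pos_iff_pos_of_mul_pos h3).1 (by positivity)
  obtain ⟨z3, hz3, hz3'⟩ : ∃ z3 : ℝ, 0 < z3 ∧ z3 ^ 2 = c ^ 2 - x3 ^ 2 - y3 ^ 2 :=
    ⟨√(c ^ 2 - x3 ^ 2 - y3 ^ 2), Real.sqrt_pos.2 hpos3, Real.sq_sqrt hpos3.le⟩
  refine ⟨![!₂[0, 0, 0], !₂[a, 0, 0], !₂[x2, y2, 0], !₂[x3, y3, z3]],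
    affine_indep ha.ne' hy2.ne' hz3.ne', ?_, ?_, ?_, ?_, ?_, ?_⟩
  · exact dist3_eq ha (by ring)
  · exact dist3_eq hb (by linarith)
  · exact dist3_eq hc (by linarith)
  · exact dist3_eq hd (by linarith)
  · exact dist3_eq he (by linarith)
  · exact dist3_eq hf (by linarith)

end Pool.Agent.L5helper3.NF
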